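import Pool.Agent.H38.AE.Targets

/-! Module G: weighted energy of the integers up to `N` modulo `q`. -/

set_option autoImplicit false

namespace Pool.Agent.H87.AE

open Pool.Agent.H38.AE Finset

theorem rad_pos' (n : ℕ) : 1 ≤ rad n :=
  Nat.succ_le_of_lt (Finset.prod_pos (fun _ hp => (Nat.prime_of_mem_primeFactors hp).pos))

theorem rad_le' (n : ℕ) (hn : 1 ≤ n) : rad n ≤ n :=
  Nat.le_of_dvd hn (Nat.prod_primeFactors_dvd n)

theorem wt_mono' (q : ℕ) {R R' : ℝ} (h0 : 0 ≤ R) (h : R ≤ R') : wt q R ≤ wt q R' := by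
  unfold wt
  have h1 : R ^ 2 ≤ R' ^ 2 := by nlinarith
  have h2 : R ^ 2 / Real.sqrt q ≤ R' ^ 2 / Real.sqrt q :=
    div_le_div_of_nonneg_right h1 (Real.sqrt_nonneg _)
  linarith

theorem wt_pos' (q : ℕ) {R : ℝ} (h : 0 < R) : 0 < wt q R := by
  unfold wt
  have h2 : 0 ≤ R ^ 2 / Real.sqrt q := div_nonneg (sq_nonneg _) (Real.sqrt_nonneg _)
  linarith

/-- Cauchy and Schwarz over the indices. -/
theorem energy_bound {ι γ : Type*} [DecidableEq ι] [Fintype γ] (X : Finset ℕ)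
    (κ : ℕ → ι) (cls : γ → Finset ℕ) (hcls : ∀ g, cls g ⊆ X) (w : ℕ → ℝ) (v : ι → ℝ)
    (hv : ∀ k, 0 < v k) (hw0 : ∀ x, 0 ≤ w x)
    (hw : ∀ x ∈ X, w x ≤ 1 / Real.sqrt (v (κ x))) (M : ℝ)
    (hM : ∀ k ∈ X.image κ, ∑ g, (((cls g).filter (fun x => κ x = k)).card : ℝ) ^ 2 ≤ M * v k) :
    ∑ g, (∑ x ∈ cls g, w x) ^ 2 ≤ ((X.image κ).card : ℝ) ^ 2 * M := by
  set S := X.image κ with hS
  have h1 : ∀ g, ∑ x ∈ cls g, w x ≤
      ∑ k ∈ S, (((cls g).filter (fun x => κ x = k)).card : ℝ) / Real.sqrt (v k) := by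
    intro g
    calc ∑ x ∈ cls g, w x ≤ ∑ x ∈ cls g, 1 / Real.sqrt (v (κ x)) :=
          Finset.sum_le_sum (fun x hx => hw x (hcls g hx))
      _ = ∑ k ∈ S, ∑ x ∈ (cls g).filter (fun x => κ x = k), 1 / Real.sqrt (v (κ x)) := by
          rw [Finset.sum_fiberwise_of_maps_to]
          intro x hx
          exact Finset.mem_image_of_mem κ (hcls g hx)
      _ = ∑ k ∈ S, (((cls g).filter (fun x => κ x = k)).card : ℝ) / Real.sqrt (v k) := by
          refine Finset.sum_congr rfl (fun k _ => ?_)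
          rw [Finset.sum_congr rfl (g := fun _ => 1 / Real.sqrt (v k))]
          · rw [Finset.sum_const, nsmul_eq_mul]; ring
          · intro x hx
            rw [(Finset.mem_filter.1 hx).2]
  have h2 : ∀ g, (∑ x ∈ cls g, w x) ^ 2 ≤
      (S.card : ℝ) * ∑ k ∈ S, (((cls g).filter (fun x => κ x = k)).card : ℝ) ^ 2 / v k := by
    intro g
    have h3 : 0 ≤ ∑ x ∈ cls g, w x := Finset.sum_nonneg (fun x _ => hw0 x)
    calc (∑ x ∈ cls g, w x) ^ 2 ≤
        (∑ k ∈ S, (((cls g).filter (fun x => κ x = k)).card : ℝ) / Real.sqrt (v k)) ^ 2 :=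
          pow_le_pow_left₀ h3 (h1 g) 2
      _ ≤ (S.card : ℝ) * ∑ k ∈ S,
          ((((cls g).filter (fun x => κ x = k)).card : ℝ) / Real.sqrt (v k)) ^ 2 :=
          sq_sum_le_card_mul_sum_sq
      _ = _ := by
          congr 1
          refine Finset.sum_congr rfl (fun k _ => ?_)
          rw [div_pow, Real.sq_sqrt (hv k).le]
  calc ∑ g, (∑ x ∈ cls g, w x) ^ 2 ≤
      ∑ g, (S.card : ℝ) * ∑ k ∈ S, (((cls g).filter (fun x => κ x = k)).card : ℝ) ^ 2 / v k :=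
        Finset.sum_le_sum (fun g _ => h2 g)
    _ = (S.card : ℝ) * ∑ k ∈ S, (∑ g, (((cls g).filter (fun x => κ x = k)).card : ℝ) ^ 2) / v k := by
        rw [← Finset.mul_sum, Finset.sum_comm]
        congr 1
        refine Finset.sum_congr rfl (fun k _ => ?_)
        rw [Finset.sum_div]
    _ ≤ (S.card : ℝ) * ∑ k ∈ S, M := by
        refine mul_le_mul_of_nonneg_left (Finset.sum_le_sum (fun k hk => ?_)) (Nat.cast_nonneg _)
        rw [div_le_iff₀ (hv k)]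
        exact hM k hk
    _ = ((S.card : ℝ)) ^ 2 * M := by
        rw [Finset.sum_const, nsmul_eq_mul]; ring

/-- From the energy to the twisted sum. -/
theorem twist_bound (q N : ℕ) [NeZero q] (u : (ZMod q)ˣ) (w : ℕ → ℝ) (hw0 : ∀ x, 0 ≤ w x) :
    ∑ t ∈ ((Finset.Icc 1 N) ×ˢ (Finset.Icc 1 N)).filter
      (fun t => ((t.1 : ℕ) : ZMod q) = u * ((t.2 : ℕ) : ZMod q) ∧ IsUnit ((t.1 : ℕ) : ZMod q)),
      w t.1 * w t.2 ≤
    ∑ g : (ZMod q)ˣ, (∑ x ∈ (Finset.Icc 1 N).filter (fun x : ℕ => (x : ZMod q) = (g : ZMod q)),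
      w x) ^ 2 := by
  classical
  set T : (ZMod q)ˣ → ℝ := fun g =>
    ∑ x ∈ (Finset.Icc 1 N).filter (fun x : ℕ => (x : ZMod q) = (g : ZMod q)), w x with hT
  have h1 : ∑ t ∈ ((Finset.Icc 1 N) ×ˢ (Finset.Icc 1 N)).filter
      (fun t => ((t.1 : ℕ) : ZMod q) = u * ((t.2 : ℕ) : ZMod q) ∧ IsUnit ((t.1 : ℕ) : ZMod q)),
      w t.1 * w t.2 ≤ ∑ g : (ZMod q)ˣ, T (u * g) * T g := by
    calc _ ≤ ∑ t ∈ (Finset.Icc 1 N) ×ˢ (Finset.Icc 1 N), ∑ g : (ZMod q)ˣ,
          (if ((t.1 : ℕ) : ZMod q) = ((u * g : (ZMod q)ˣ) : ZMod q) then w t.1 else 0) *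
          (if ((t.2 : ℕ) : ZMod q) = (g : ZMod q) then w t.2 else 0) := by
          rw [Finset.sum_filter]
          refine Finset.sum_le_sum (fun t _ => ?_)
          have hnn : ∀ g : (ZMod q)ˣ, 0 ≤
              (if ((t.1 : ℕ) : ZMod q) = ((u * g : (ZMod q)ˣ) : ZMod q) then w t.1 else 0) *
              (if ((t.2 : ℕ) : ZMod q) = (g : ZMod q) then w t.2 else 0) := by
            intro g
            refine mul_nonneg ?_ ?_
            · split_ifs
              · exact hw0 _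
              · exact le_rfl
            · split_ifs
              · exact hw0 _
              · exact le_rfl
          split_ifs with hc
          · obtain ⟨hc1, hc2⟩ := hc
            have hy : IsUnit ((t.2 : ℕ) : ZMod q) := by
              rw [hc1] at hc2
              exact isUnit_of_mul_isUnit_right hc2
            obtain ⟨g, hg⟩ := hy
            refine le_trans ?_ (Finset.single_le_sum (fun g _ => hnn g) (Finset.mem_univ g))
            rw [if_pos, if_pos]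
            · exact hg.symm
            · rw [hc1, ← hg]; simp
          · exact Finset.sum_nonneg (fun g _ => hnn g)
      _ = ∑ g : (ZMod q)ˣ, T (u * g) * T g := by
          rw [Finset.sum_comm]
          refine Finset.sum_congr rfl (fun g _ => ?_)
          rw [hT]
          simp only []
          rw [Finset.sum_filter, Finset.sum_filter, Finset.sum_mul_sum, Finset.sum_product]
  refine h1.trans ?_
  calc ∑ g : (ZMod q)ˣ, T (u * g) * T g ≤ ∑ g : (ZMod q)ˣ, ((T (u * g)) ^ 2 + (T g) ^ 2) / 2 := by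
        refine Finset.sum_le_sum (fun g _ => ?_)
        have := two_mul_le_add_sq (T (u * g)) (T g)
        linarith
    _ = (∑ g : (ZMod q)ˣ, (T (u * g)) ^ 2 + ∑ g : (ZMod q)ˣ, (T g) ^ 2) / 2 := by
        rw [← Finset.sum_div, Finset.sum_add_distrib]
    _ = ∑ g : (ZMod q)ˣ, (T g) ^ 2 := by
        have := Equiv.sum_comp (Equiv.mulLeft u) (fun g => (T g) ^ 2)
        simp only [Equiv.coe_mulLeft] at this
        rw [this]; ring

/-- The number of possible values of the logarithm. -/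
theorem log_bound (δ : ℝ) (hδ : 0 < δ) (N : ℕ) (hN : 1 ≤ N) :
    ((Nat.log 2 N + 1 : ℕ) : ℝ) ≤ (1 / (δ * Real.log 2) + 1) * (N : ℝ) ^ δ := by
  have hl2 : 0 < Real.log 2 := Real.log_pos (by norm_num)
  have hN0 : (0 : ℝ) < N := by exact_mod_cast hN
  have h1 : (2 : ℝ) ^ (Nat.log 2 N) ≤ N := by
    exact_mod_cast Nat.pow_log_le_self 2 (by omega)
  have h2 : (Nat.log 2 N : ℝ) * Real.log 2 ≤ Real.log N := by
    have := Real.log_le_log (by positivity) h1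
    rwa [Real.log_pow] at this
  have h3 : Real.log N * δ + 1 ≤ (N : ℝ) ^ δ := by
    rw [Real.rpow_def_of_pos hN0]
    exact Real.add_one_le_exp _
  have h4 : (1 : ℝ) ≤ (N : ℝ) ^ δ := Real.one_le_rpow (by exact_mod_cast hN) hδ.le
  have h5 : (Nat.log 2 N : ℝ) ≤ 1 / (δ * Real.log 2) * (N : ℝ) ^ δ := by
    rw [one_div, inv_mul_eq_div, le_div_iff₀ (mul_pos hδ hl2)]
    have h6 : (Nat.log 2 N : ℝ) * Real.log 2 * δ ≤ Real.log N * δ :=
      mul_le_mul_of_nonneg_right h2 hδ.le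
    calc (Nat.log 2 N : ℝ) * (δ * Real.log 2) = (Nat.log 2 N : ℝ) * Real.log 2 * δ := by ring
      _ ≤ Real.log N * δ := h6
      _ ≤ _ := by linarith
  push_cast
  linarith

/-- The number of the integers with a small radical. -/
theorem count_bound (hA : T_A) (K : ℕ) (η : ℝ) (hη : 0 < η) (hK : 1 / η ≤ K + 1) :
    ∃ C : ℝ, 0 < C ∧ ∀ N : ℕ, 1 ≤ N →
      (((Finset.Icc 1 N).filter (fun z => (rad z) ^ (K + 1) ≤ N)).card : ℝ) ≤
        C * (N : ℝ) ^ (2 * η) := by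
  obtain ⟨C, hC, h⟩ := hA η hη
  refine ⟨C, hC, fun N hN => ?_⟩
  have hN1 : (1 : ℝ) ≤ N := by exact_mod_cast hN
  have hN0 : (0 : ℝ) < N := by linarith
  have hK0 : (0 : ℝ) < (K : ℝ) + 1 := by positivity
  have h1 : ∀ z ∈ (Finset.Icc 1 N).filter (fun z => (rad z) ^ (K + 1) ≤ N),
      (1 : ℝ) ≤ (N : ℝ) ^ η * (1 / (rad z : ℝ)) := by
    intro z hz
    have hz2 : ((rad z : ℝ)) ^ (K + 1) ≤ N := by exact_mod_cast (Finset.mem_filter.1 hz).2
    have hr1 : (1 : ℝ) ≤ rad z := by exact_mod_cast rad_pos' z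
    have hr0 : (0 : ℝ) < rad z := by linarith
    have h2 : (rad z : ℝ) ≤ (N : ℝ) ^ η := by
      have h3 : ((rad z : ℝ) ^ (K + 1)) ^ η ≤ (N : ℝ) ^ η :=
        Real.rpow_le_rpow (by positivity) hz2 hη.le
      refine le_trans ?_ h3
      rw [← Real.rpow_natCast, ← Real.rpow_mul hr0.le]
      have h4 : (1 : ℝ) ≤ ((K + 1 : ℕ) : ℝ) * η := by
        push_cast
        rw [div_le_iff₀ hη] at hK
        exact hK
      calc (rad z : ℝ) = (rad z : ℝ) ^ (1 : ℝ) := (Real.rpow_one _).symm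
        _ ≤ _ := Real.rpow_le_rpow_of_exponent_le hr1 h4
    rw [mul_one_div, le_div_iff₀ hr0]
    linarith
  calc (((Finset.Icc 1 N).filter (fun z => (rad z) ^ (K + 1) ≤ N)).card : ℝ)
      = ∑ z ∈ (Finset.Icc 1 N).filter (fun z => (rad z) ^ (K + 1) ≤ N), (1 : ℝ) := by simp
    _ ≤ ∑ z ∈ (Finset.Icc 1 N).filter (fun z => (rad z) ^ (K + 1) ≤ N),
        (N : ℝ) ^ η * (1 / (rad z : ℝ)) := Finset.sum_le_sum h1
    _ ≤ ∑ z ∈ Finset.Icc 1 N, (N : ℝ) ^ η * (1 / (rad z : ℝ)) := by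
        refine Finset.sum_le_sum_of_subset_of_nonneg (Finset.filter_subset _ _) ?_
        intro z _ _
        positivity
    _ = (N : ℝ) ^ η * ∑ z ∈ Finset.Icc 1 N, (1 / (rad z : ℝ)) := by rw [Finset.mul_sum]
    _ ≤ (N : ℝ) ^ η * (C * (N : ℝ) ^ η) :=
        mul_le_mul_of_nonneg_left (h N hN) (by positivity)
    _ = C * (N : ℝ) ^ (2 * η) := by
        rw [show 2 * η = η + η by ring, Real.rpow_add hN0]; ring

/-- The energy of one class of indices. -/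
theorem class_energy (K N q : ℕ) [NeZero q] (zz : ℕ → ℕ) (yy : ℕ → Fin K → ℕ)
    (hy1 : ∀ x, 1 ≤ x → ∀ j, 1 ≤ yy x j)
    (hx : ∀ x, 1 ≤ x → x = zz x * ∏ j, yy x j ^ (j.val + 1)) (k : ℕ × (Fin K → ℕ)) :
    ∑ g : (ZMod q)ˣ, ((((Finset.Icc 1 N).filter (fun x : ℕ => (x : ZMod q) = (g : ZMod q))).filter
      (fun x => ((zz x, fun j => Nat.log 2 (yy x j)) : ℕ × (Fin K → ℕ)) = k)).card : ℝ) ^ 2 ≤
    ((((Fintype.piFinset (fun j => Finset.Ico (2 ^ k.2 j) (2 * 2 ^ k.2 j))) ×ˢ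
      (Fintype.piFinset (fun j => Finset.Ico (2 ^ k.2 j) (2 * 2 ^ k.2 j)))).filter
    (fun t => (∏ j, ((t.1 j : ℕ) : ZMod q) ^ (j.val + 1)) =
        ∏ j, ((t.2 j : ℕ) : ZMod q) ^ (j.val + 1) ∧
      IsUnit (∏ j, ((t.1 j : ℕ) : ZMod q) ^ (j.val + 1)))).card : ℝ) := by
  classical
  set B : (ZMod q)ˣ → Finset ℕ := fun g =>
    ((Finset.Icc 1 N).filter (fun x : ℕ => (x : ZMod q) = (g : ZMod q))).filter
      (fun x => ((zz x, fun j => Nat.log 2 (yy x j)) : ℕ × (Fin K → ℕ)) = k) with hB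
  have hBm : ∀ g x, x ∈ B g → 1 ≤ x ∧ (x : ZMod q) = (g : ZMod q) ∧ zz x = k.1 ∧
      ∀ j, Nat.log 2 (yy x j) = k.2 j := by
    intro g x hxg
    rw [hB] at hxg
    simp only [Finset.mem_filter, Finset.mem_Icc] at hxg
    obtain ⟨⟨⟨h1, _⟩, h2⟩, h3⟩ := hxg
    refine ⟨h1, h2, congrArg Prod.fst h3, fun j => ?_⟩
    exact congrFun (congrArg Prod.snd h3) j
  have h1 : ∑ g : (ZMod q)ˣ, ((B g).card : ℝ) ^ 2 =
      ((Finset.univ.sigma (fun g => B g ×ˢ B g)).card : ℝ) := by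
    rw [Finset.card_sigma]
    push_cast
    refine Finset.sum_congr rfl (fun g _ => ?_)
    rw [Finset.card_product]
    push_cast
    ring
  change ∑ g : (ZMod q)ˣ, ((B g).card : ℝ) ^ 2 ≤ _
  rw [h1]
  have hbox : ∀ g x, x ∈ B g → yy x ∈ Fintype.piFinset
      (fun j => Finset.Ico (2 ^ k.2 j) (2 * 2 ^ k.2 j)) := by
    intro g x hxg
    obtain ⟨h1, h2, h3, h4⟩ := hBm g x hxg
    rw [Fintype.mem_piFinset]
    intro j
    rw [Finset.mem_Ico, ← h4 j]
    refine ⟨Nat.pow_log_le_self 2 (by have := hy1 x h1 j; omega), ?_⟩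
    have := Nat.lt_pow_succ_log_self (b := 2) (by norm_num) (yy x j)
    rw [pow_succ] at this
    omega
  have hcast : ∀ g x, x ∈ B g → ((k.1 : ℕ) : ZMod q) * ∏ j, ((yy x j : ℕ) : ZMod q) ^ (j.val + 1) =
      (g : ZMod q) := by
    intro g x hxg
    obtain ⟨h1, h2, h3, h4⟩ := hBm g x hxg
    rw [← h2, ← h3]
    conv_rhs => rw [hx x h1]
    push_cast
    rfl
  have hcard : (Finset.univ.sigma (fun g => B g ×ˢ B g)).card ≤
      (((Fintype.piFinset (fun j => Finset.Ico (2 ^ k.2 j) (2 * 2 ^ k.2 j))) ×ˢ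
      (Fintype.piFinset (fun j => Finset.Ico (2 ^ k.2 j) (2 * 2 ^ k.2 j)))).filter
    (fun t => (∏ j, ((t.1 j : ℕ) : ZMod q) ^ (j.val + 1)) =
        ∏ j, ((t.2 j : ℕ) : ZMod q) ^ (j.val + 1) ∧
      IsUnit (∏ j, ((t.1 j : ℕ) : ZMod q) ^ (j.val + 1)))).card := by
    refine Finset.card_le_card_of_injOn
      (fun s : (Σ _ : (ZMod q)ˣ, ℕ × ℕ) => (yy s.2.1, yy s.2.2)) ?_ ?_
    · rintro ⟨g, x, x'⟩ hs
      have hs' : (⟨g, x, x'⟩ : Σ _ : (ZMod q)ˣ, ℕ × ℕ) ∈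
        Finset.univ.sigma (fun g => B g ×ˢ B g) := hs
      rw [Finset.mem_sigma, Finset.mem_product] at hs'
      obtain ⟨-, hxg, hxg'⟩ := hs'
      have e1 := hcast g x hxg
      have e2 := hcast g x' hxg'
      have hu1 : IsUnit (((k.1 : ℕ) : ZMod q) * ∏ j, ((yy x j : ℕ) : ZMod q) ^ (j.val + 1)) := by
        rw [e1]; exact g.isUnit
      have hz : IsUnit ((k.1 : ℕ) : ZMod q) := isUnit_of_mul_isUnit_left hu1
      change (yy x, yy x') ∈ (Finset.filter _ _ : Finset _)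
      rw [Finset.mem_filter, Finset.mem_product]
      refine ⟨⟨hbox g x hxg, hbox g x' hxg'⟩, ?_, isUnit_of_mul_isUnit_right hu1⟩
      exact hz.mul_left_cancel (e1.trans e2.symm)
    · rintro ⟨g, x, x'⟩ hs ⟨g2, x2, x2'⟩ hs2 heq
      have hs' : (⟨g, x, x'⟩ : Σ _ : (ZMod q)ˣ, ℕ × ℕ) ∈
        Finset.univ.sigma (fun g => B g ×ˢ B g) := hs
      have hs2' : (⟨g2, x2, x2'⟩ : Σ _ : (ZMod q)ˣ, ℕ × ℕ) ∈
        Finset.univ.sigma (fun g => B g ×ˢ B g) := hs2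
      rw [Finset.mem_sigma, Finset.mem_product] at hs' hs2'
      obtain ⟨-, hxg, hxg'⟩ := hs'
      obtain ⟨-, hxg2, hxg2'⟩ := hs2'
      have e1 : yy x = yy x2 := congrArg Prod.fst heq
      have e2 : yy x' = yy x2' := congrArg Prod.snd heq
      obtain ⟨a1, a2, a3, -⟩ := hBm g x hxg
      obtain ⟨b1, b2, b3, -⟩ := hBm g2 x2 hxg2
      obtain ⟨a1', a2', a3', -⟩ := hBm g x' hxg'
      obtain ⟨b1', b2', b3', -⟩ := hBm g2 x2' hxg2'
      have f1 : x = x2 := by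
        rw [hx x a1, hx x2 b1, a3, b3, e1]
      have f2 : x' = x2' := by
        rw [hx x' a1', hx x2' b1', a3', b3', e2]
      have f3 : g = g2 := by
        apply Units.ext
        rw [← a2, ← b2, f1]
      subst f1 f2 f3
      rfl
  exact_mod_cast hcard

theorem pf_G (hA : T_A) (hF : T_F) (hS : T_S) : T_G := by
  classical
  intro ε hε
  set η : ℝ := ε / 8 with hη
  have hη0 : 0 < η := by positivity
  obtain ⟨K, hK⟩ := exists_nat_gt (1 / η)
  have hK1 : 1 / η ≤ (K : ℝ) + 1 := by linarith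
  obtain ⟨CZ, hCZ, hZ⟩ := count_bound hA K η hη0 hK1
  obtain ⟨CF, hCF, hFb⟩ := hF K η hη0
  have hS' : ∀ x : ℕ, ∃ (z : ℕ) (y : Fin K → ℕ), 1 ≤ x → (1 ≤ z ∧ (∀ j, 1 ≤ y j) ∧
      x = z * ∏ j, y j ^ (j.val + 1) ∧ ∏ j, y j ≤ rad x ∧ (rad z) ^ (K + 1) ≤ x) := by
    intro x
    by_cases h : 1 ≤ x
    · obtain ⟨z, y, h1⟩ := hS K x h
      exact ⟨z, y, fun _ => h1⟩
    · exact ⟨0, fun _ => 0, fun h' => absurd h' h⟩
  choose zz yy hzy using hS'
  have hz1 : ∀ x, 1 ≤ x → 1 ≤ zz x := fun x h => (hzy x h).1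
  have hy1 : ∀ x, 1 ≤ x → ∀ j, 1 ≤ yy x j := fun x h => (hzy x h).2.1
  have hx : ∀ x, 1 ≤ x → x = zz x * ∏ j, yy x j ^ (j.val + 1) := fun x h => (hzy x h).2.2.1
  have hyr : ∀ x, 1 ≤ x → ∏ j, yy x j ≤ rad x := fun x h => (hzy x h).2.2.2.1
  have hzr : ∀ x, 1 ≤ x → (rad (zz x)) ^ (K + 1) ≤ x := fun x h => (hzy x h).2.2.2.2
  set κ : ℕ → ℕ × (Fin K → ℕ) := fun x => (zz x, fun j => Nat.log 2 (yy x j)) with hκ
  have hK0 : (0 : ℝ) < (K : ℝ) + 1 := by positivity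
  set δ : ℝ := η / (K + 1) with hδ
  have hδ0 : 0 < δ := div_pos hη0 hK0
  have hl2 : 0 < Real.log 2 := Real.log_pos (by norm_num)
  set c : ℝ := 1 / (δ * Real.log 2) + 1 with hc
  have hc0 : 0 < c := by positivity
  refine ⟨(CZ * c ^ K) ^ 2 * CF, by positivity, ?_⟩
  intro N q _ hN hqN u
  have hN1 : (1 : ℝ) ≤ N := by exact_mod_cast hN
  have hN0 : (0 : ℝ) < N := by linarith
  -- the size of the logarithmic box is at most the radical
  have hAle : ∀ x, 1 ≤ x → ∏ j, 2 ^ ((κ x).2 j) ≤ rad x := by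
    intro x h
    refine le_trans (Finset.prod_le_prod' (fun j _ => ?_)) (hyr x h)
    exact Nat.pow_log_le_self 2 (by have := hy1 x h j; omega)
  set w : ℕ → ℝ := fun x => 1 / Real.sqrt (wt q (rad x)) with hw
  set v : ℕ × (Fin K → ℕ) → ℝ := fun k => wt q (((∏ j, 2 ^ (k.2 j) : ℕ) : ℝ)) with hv
  have hv0 : ∀ k, 0 < v k := by
    intro k
    apply wt_pos'
    exact_mod_cast Finset.prod_pos (fun j _ => by positivity)
  have hr0 : ∀ x, (0 : ℝ) < rad x := fun x => by exact_mod_cast rad_pos' x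
  have hw0 : ∀ x, 0 ≤ w x := fun x => by
    rw [hw]; positivity
  have hwle : ∀ x ∈ Finset.Icc 1 N, w x ≤ 1 / Real.sqrt (v (κ x)) := by
    intro x hxN
    rw [Finset.mem_Icc] at hxN
    have h1 : v (κ x) ≤ wt q (rad x) :=
      wt_mono' q (Nat.cast_nonneg _) (by exact_mod_cast hAle x hxN.1)
    exact one_div_le_one_div_of_le (Real.sqrt_pos.2 (hv0 _)) (Real.sqrt_le_sqrt h1)
  -- energy
  have hM : ∀ k ∈ (Finset.Icc 1 N).image κ, ∑ g : (ZMod q)ˣ,
      ((((Finset.Icc 1 N).filter (fun x : ℕ => (x : ZMod q) = (g : ZMod q))).filter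
        (fun x => κ x = k)).card : ℝ) ^ 2 ≤ (CF * (N : ℝ) ^ η) * v k := by
    intro k hk
    obtain ⟨x, hxN, hxk⟩ := Finset.mem_image.1 hk
    rw [Finset.mem_Icc] at hxN
    refine (class_energy K N q zz yy hy1 hx k).trans ?_
    refine hFb N q hqN (fun j => 2 ^ k.2 j) (fun j => Nat.one_le_two_pow) ?_
    rw [← hxk]
    exact (hAle x hxN.1).trans ((rad_le' x hxN.1).trans hxN.2)
  have hmain := energy_bound (Finset.Icc 1 N) κ
    (fun g : (ZMod q)ˣ => (Finset.Icc 1 N).filter (fun x : ℕ => (x : ZMod q) = (g : ZMod q)))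
    (fun g => Finset.filter_subset _ _) w v hv0 hw0 hwle (CF * (N : ℝ) ^ η) hM
  have htw := twist_bound q N u w hw0
  -- the number of indices
  have hcard : (((Finset.Icc 1 N).image κ).card : ℝ) ≤ CZ * c ^ K * (N : ℝ) ^ (3 * η) := by
    have hsub : (Finset.Icc 1 N).image κ ⊆
        ((Finset.Icc 1 N).filter (fun z => (rad z) ^ (K + 1) ≤ N)) ×ˢ
        (Fintype.piFinset (fun _ : Fin K => Finset.range (Nat.log 2 N + 1))) := by
      intro k hk
      obtain ⟨x, hxN, hxk⟩ := Finset.mem_image.1 hk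
      rw [Finset.mem_Icc] at hxN
      rw [← hxk, Finset.mem_product, Finset.mem_filter, Finset.mem_Icc, Fintype.mem_piFinset]
      have hp1 : 1 ≤ ∏ j, yy x j ^ (j.val + 1) :=
        Nat.succ_le_of_lt (Finset.prod_pos (fun j _ => pow_pos (hy1 x hxN.1 j) _))
      have hzx : zz x ≤ x := by
        conv_rhs => rw [hx x hxN.1]
        exact Nat.le_mul_of_pos_right _ hp1
      refine ⟨⟨⟨hz1 x hxN.1, hzx.trans hxN.2⟩, (hzr x hxN.1).trans hxN.2⟩, fun j => ?_⟩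
      rw [Finset.mem_range, Nat.lt_succ_iff]
      change Nat.log 2 (yy x j) ≤ Nat.log 2 N
      apply Nat.log_mono_right
      have h1 : yy x j ≤ ∏ j, yy x j :=
        Finset.single_le_prod' (fun i _ => hy1 x hxN.1 i) (Finset.mem_univ j)
      exact h1.trans ((hyr x hxN.1).trans ((rad_le' x hxN.1).trans hxN.2))
    have h1 := Finset.card_le_card hsub
    rw [Finset.card_product, Fintype.card_piFinset] at h1
    simp only [Finset.card_range, Finset.prod_const, Finset.card_univ, Fintype.card_fin] at h1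
    have h2 : (((Finset.Icc 1 N).image κ).card : ℝ) ≤
        (((Finset.Icc 1 N).filter (fun z => (rad z) ^ (K + 1) ≤ N)).card : ℝ) *
          ((Nat.log 2 N + 1 : ℕ) : ℝ) ^ K := by exact_mod_cast h1
    have h3 : ((Nat.log 2 N + 1 : ℕ) : ℝ) ^ K ≤ c ^ K * (N : ℝ) ^ η := by
      have h4 := pow_le_pow_left₀ (Nat.cast_nonneg _) (log_bound δ hδ0 N hN) K
      refine h4.trans ?_
      rw [mul_pow, ← Real.rpow_natCast ((N : ℝ) ^ δ) K, ← Real.rpow_mul hN0.le]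
      refine mul_le_mul_of_nonneg_left ?_ (by positivity)
      refine Real.rpow_le_rpow_of_exponent_le hN1 ?_
      rw [hδ, div_mul_eq_mul_div, div_le_iff₀ hK0]
      linarith
    calc (((Finset.Icc 1 N).image κ).card : ℝ) ≤ _ := h2
      _ ≤ (CZ * (N : ℝ) ^ (2 * η)) * (c ^ K * (N : ℝ) ^ η) :=
          mul_le_mul (hZ N hN) h3 (by positivity) (by positivity)
      _ = CZ * c ^ K * (N : ℝ) ^ (3 * η) := by
          rw [show 3 * η = 2 * η + η by ring, Real.rpow_add hN0]; ring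
  calc (∑ t ∈ ((Finset.Icc 1 N) ×ˢ (Finset.Icc 1 N)).filter
            (fun t => ((t.1 : ℕ) : ZMod q) = u * ((t.2 : ℕ) : ZMod q) ∧ IsUnit ((t.1 : ℕ) : ZMod q)),
        1 / Real.sqrt (wt q (rad t.1) * wt q (rad t.2)))
      = ∑ t ∈ ((Finset.Icc 1 N) ×ˢ (Finset.Icc 1 N)).filter
            (fun t => ((t.1 : ℕ) : ZMod q) = u * ((t.2 : ℕ) : ZMod q) ∧ IsUnit ((t.1 : ℕ) : ZMod q)),
        w t.1 * w t.2 := by
        refine Finset.sum_congr rfl (fun t _ => ?_)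
        rw [hw, Real.sqrt_mul (wt_pos' q (hr0 _)).le]
        simp only [one_div, mul_inv]
    _ ≤ _ := htw
    _ ≤ (((Finset.Icc 1 N).image κ).card : ℝ) ^ 2 * (CF * (N : ℝ) ^ η) := hmain
    _ ≤ (CZ * c ^ K * (N : ℝ) ^ (3 * η)) ^ 2 * (CF * (N : ℝ) ^ η) := by
        refine mul_le_mul_of_nonneg_right ?_ (by positivity)
        exact pow_le_pow_left₀ (Nat.cast_nonneg _) hcard 2
    _ = (CZ * c ^ K) ^ 2 * CF * (N : ℝ) ^ (7 * η) := by
        rw [show 7 * η = 3 * η + 3 * η + η by ring, Real.rpow_add hN0, Real.rpow_add hN0]; ring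
    _ ≤ (CZ * c ^ K) ^ 2 * CF * (N : ℝ) ^ ε := by
        refine mul_le_mul_of_nonneg_left ?_ (by positivity)
        refine Real.rpow_le_rpow_of_exponent_le hN1 ?_
        rw [hη]; linarith

end Pool.Agent.H87.AE
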