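import Pool.Agent.H38.AE.Targets

/-! Module HB: the intersection of the curve `a x ^ e + b y ^ f = E` with a curve of small degree
has a bounded number of points. -/

set_option autoImplicit false

namespace Pool.Agent.H87.AE

open Pool.Agent.H38.AE Polynomial

/-- Degree of a determinant. -/
theorem natDegree_det_le' {n : ℕ} (M : Matrix (Fin n) (Fin n) ℚ[X]) (d : ℕ)
    (h : ∀ i j, (M i j).natDegree ≤ d) : M.det.natDegree ≤ n * d := by
  rw [Matrix.det_apply]
  refine Polynomial.natDegree_sum_le_of_forall_le _ _ (fun σ _ => ?_)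
  refine (Polynomial.natDegree_smul_le _ _).trans ?_
  refine (Polynomial.natDegree_prod_le _ _).trans ?_
  refine (Finset.sum_le_card_nsmul _ _ d (fun i _ => h _ _)).trans ?_
  simp

/-- The curve as a polynomial in `y` over `ℚ[x]` is irreducible. -/
theorem irr_F (e f : ℕ) (u v : ℚ) (he : 0 < e) (hf : 0 < f) (hu : u ≠ 0) (hv : v ≠ 0) :
    Irreducible ((X : ℚ[X][X]) ^ f - C (C u * ((X : ℚ[X]) ^ e - C v))) := by
  set g : ℚ[X] := (X : ℚ[X]) ^ e - C v with hg
  have hgsep : g.Separable :=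
    Polynomial.separable_X_pow_sub_C v (by exact_mod_cast he.ne') hv
  have hgsq : Squarefree g := hgsep.squarefree
  have hgdeg : g.natDegree = e := Polynomial.natDegree_X_pow_sub_C
  have hgnu : ¬ IsUnit g := by
    intro h
    have := Polynomial.natDegree_eq_zero_of_isUnit h
    omega
  have hg0 : g ≠ 0 := by
    intro h
    rw [h] at hgdeg
    simp at hgdeg
    omega
  obtain ⟨π, hπ, hπg⟩ := WfDvdMonoid.exists_irreducible_factor hgnu hg0
  have hπp : Prime π := hπ.prime
  have hunit : IsUnit (C u : ℚ[X]) := Polynomial.isUnit_C.2 (isUnit_iff_ne_zero.2 hu)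
  have hnd : ((X : ℚ[X][X]) ^ f - C (C u * g)).natDegree = f := Polynomial.natDegree_X_pow_sub_C
  have hmon : ((X : ℚ[X][X]) ^ f - C (C u * g)).Monic :=
    Polynomial.monic_X_pow_sub_C _ hf.ne'
  have hdeg : ((X : ℚ[X][X]) ^ f - C (C u * g)).degree = f :=
    Polynomial.degree_X_pow_sub_C hf _
  refine Polynomial.irreducible_of_eisenstein_criterion (P := Ideal.span {π})
    ((Ideal.span_singleton_prime hπp.ne_zero).2 hπp) ?_ ?_ ?_ ?_ hmon.isPrimitive
  · rw [hmon.leadingCoeff, Ideal.mem_span_singleton]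
    intro h
    exact hπ.not_isUnit (isUnit_of_dvd_one h)
  · intro n hn
    rw [hdeg] at hn
    have hn' : n < f := by exact_mod_cast hn
    rw [Polynomial.coeff_sub, Polynomial.coeff_X_pow, if_neg (by omega), Polynomial.coeff_C]
    split_ifs
    · rw [zero_sub, Ideal.neg_mem_iff, Ideal.mem_span_singleton]
      exact hπg.mul_left _
    · simp
  · rw [hdeg]
    exact_mod_cast hf
  · rw [Polynomial.coeff_sub, Polynomial.coeff_X_pow, if_neg (by omega), Polynomial.coeff_C,
      if_pos rfl, zero_sub, Ideal.neg_mem_iff, Ideal.span_singleton_pow,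
      Ideal.mem_span_singleton]
    intro h
    have h2 : π ^ 2 ∣ g := (hunit.dvd_mul_left).1 h
    have h3 : IsUnit π := hgsq π (by rw [← pow_two]; exact h2)
    exact hπ.not_isUnit h3

/-- The second curve as a polynomial in `y` over `ℚ[x]`. -/
noncomputable def WW (D : ℕ) (h : ℕ × ℕ → ℚ) : ℚ[X][X] :=
  ∑ m ∈ mon D, C (C (h m) * X ^ m.1) * X ^ m.2

theorem WW_coeff (D : ℕ) (h : ℕ × ℕ → ℚ) (l : ℕ) :
    (WW D h).coeff l = ∑ m ∈ mon D, if m.2 = l then C (h m) * X ^ m.1 else 0 := by
  rw [WW, Polynomial.finsetSum_coeff]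
  refine Finset.sum_congr rfl (fun m _ => ?_)
  rw [Polynomial.coeff_C_mul_X_pow]
  by_cases hm : m.2 = l
  · rw [if_pos hm, if_pos hm.symm]
  · rw [if_neg hm, if_neg (fun h => hm h.symm)]

theorem mem_mon (D : ℕ) (m : ℕ × ℕ) : m ∈ mon D ↔ m.1 + m.2 ≤ D := by
  unfold mon
  simp only [Finset.mem_filter, Finset.mem_product, Finset.mem_range]
  constructor
  · rintro ⟨_, h⟩; exact h
  · intro h; exact ⟨⟨by omega, by omega⟩, h⟩

theorem WW_natDegree (D : ℕ) (h : ℕ × ℕ → ℚ) : (WW D h).natDegree ≤ D := by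
  rw [Polynomial.natDegree_le_iff_coeff_eq_zero]
  intro l hl
  rw [WW_coeff]
  refine Finset.sum_eq_zero (fun m hm => ?_)
  rw [mem_mon] at hm
  rw [if_neg (by omega)]

theorem WW_coeff_natDegree (D : ℕ) (h : ℕ × ℕ → ℚ) (l : ℕ) : ((WW D h).coeff l).natDegree ≤ D := by
  rw [WW_coeff]
  refine Polynomial.natDegree_sum_le_of_forall_le _ _ (fun m hm => ?_)
  rw [mem_mon] at hm
  split_ifs
  · refine (Polynomial.natDegree_C_mul_X_pow_le _ _).trans ?_
    omega
  · simp

theorem WW_ne_zero (D : ℕ) (h : ℕ × ℕ → ℚ) (hh : ∃ m ∈ mon D, h m ≠ 0) : WW D h ≠ 0 := by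
  obtain ⟨m, hm, hm0⟩ := hh
  intro hW
  have h1 : ((WW D h).coeff m.2).coeff m.1 = 0 := by rw [hW]; simp
  rw [WW_coeff, Polynomial.finsetSum_coeff, Finset.sum_eq_single m] at h1
  · rw [if_pos rfl, Polynomial.coeff_C_mul_X_pow, if_pos rfl] at h1
    exact hm0 h1
  · intro n _ hnm
    by_cases h2 : n.2 = m.2
    · rw [if_pos h2, Polynomial.coeff_C_mul_X_pow, if_neg]
      intro h1
      exact hnm (Prod.ext h1.symm h2)
    · rw [if_neg h2]; simp
  · intro h; exact absurd hm h

theorem WW_eval (D : ℕ) (h : ℕ × ℕ → ℚ) (x y : ℚ) :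
    ((WW D h).eval (C y)).eval x = ∑ m ∈ mon D, h m * x ^ m.1 * y ^ m.2 := by
  rw [WW, Polynomial.eval_finsetSum, Polynomial.eval_finsetSum]
  refine Finset.sum_congr rfl (fun m _ => ?_)
  simp

/-- Nonvanishing of the resultant. -/
theorem res_ne_zero (F W : ℚ[X][X]) (hF : Irreducible F) (hmon : F.Monic) (hW : W ≠ 0)
    (hd : W.natDegree < F.natDegree) : resultant F W ≠ 0 := by
  intro h0
  let K := FractionRing ℚ[X]
  let φ : ℚ[X] →+* K := algebraMap ℚ[X] K
  have hφ : Function.Injective φ := IsFractionRing.injective ℚ[X] K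
  have hFK : Irreducible (F.map φ) :=
    (hmon.irreducible_iff_irreducible_map_fraction_map (K := K)).1 hF
  have h1 : resultant (F.map φ) (W.map φ) (F.map φ).natDegree (W.map φ).natDegree = 0 := by
    rw [Polynomial.natDegree_map_eq_of_injective hφ, Polynomial.natDegree_map_eq_of_injective hφ,
      resultant_map_map, h0, map_zero]
  rw [resultant_eq_zero_iff] at h1
  apply h1.2
  by_cases h2 : F.map φ ∣ W.map φ
  swap
  · exact (hFK.coprime_iff_not_dvd).2 h2
  · exfalso
    have hW0 : W.map φ ≠ 0 := (Polynomial.map_ne_zero_iff hφ).2 hW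
    have h3 := Polynomial.natDegree_le_of_dvd h2 hW0
    rw [Polynomial.natDegree_map_eq_of_injective hφ,
      Polynomial.natDegree_map_eq_of_injective hφ] at h3
    omega

/-- Degree of the resultant. -/
theorem res_natDegree (F W : ℚ[X][X]) (d : ℕ) (hF : ∀ l, (F.coeff l).natDegree ≤ d)
    (hW : ∀ l, (W.coeff l).natDegree ≤ d) :
    (resultant F W).natDegree ≤ (F.natDegree + W.natDegree) * d := by
  unfold resultant
  refine natDegree_det_le' _ d (fun i j => ?_)
  rw [sylvester, Matrix.of_apply]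
  induction j using Fin.addCases with
  | left j =>
    rw [Fin.addCases_left]
    split_ifs
    · exact hW _
    · simp
  | right j =>
    rw [Fin.addCases_right]
    split_ifs
    · exact hF _
    · simp

theorem pf_HB : T_HB := by
  intro D e f hDe hDf
  refine ⟨(f + D) * e, ?_⟩
  intro a b E ha hb hE h hh P hP
  have haq : (a : ℚ) ≠ 0 := by exact_mod_cast ha
  have hbq : (b : ℚ) ≠ 0 := by exact_mod_cast hb
  have hEq : (E : ℚ) ≠ 0 := by exact_mod_cast hE
  have he0 : 0 < e := by omega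
  have hf0 : 0 < f := by omega
  set u : ℚ := -((a : ℚ) / b) with hu
  set v : ℚ := (E : ℚ) / a with hv
  have hu0 : u ≠ 0 := neg_ne_zero.2 (div_ne_zero haq hbq)
  have hv0 : v ≠ 0 := div_ne_zero hEq haq
  set c : ℚ[X] := C u * ((X : ℚ[X]) ^ e - C v) with hc
  set F : ℚ[X][X] := (X : ℚ[X][X]) ^ f - C c with hF
  have hFirr : Irreducible F := irr_F e f u v he0 hf0 hu0 hv0
  have hFmon : F.Monic := Polynomial.monic_X_pow_sub_C _ hf0.ne'
  have hFdeg : F.natDegree = f := Polynomial.natDegree_X_pow_sub_C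
  have hW0 := WW_ne_zero D h hh
  have hWd := WW_natDegree D h
  set W := WW D h with hW
  have hr0 : resultant F W ≠ 0 := res_ne_zero F W hFirr hFmon hW0 (by omega)
  have hcdeg : c.natDegree ≤ e := by
    refine (Polynomial.natDegree_C_mul_le _ _).trans ?_
    rw [Polynomial.natDegree_X_pow_sub_C]
  have hFc : ∀ l, (F.coeff l).natDegree ≤ e := by
    intro l
    rw [hF, Polynomial.coeff_sub, Polynomial.coeff_X_pow, Polynomial.coeff_C]
    refine (Polynomial.natDegree_sub_le _ _).trans (max_le ?_ ?_)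
    · split_ifs <;> simp
    · split_ifs
      · exact hcdeg
      · simp
  have hWc : ∀ l, (W.coeff l).natDegree ≤ e := fun l =>
    (WW_coeff_natDegree D h l).trans hDe.le
  have hrd : (resultant F W).natDegree ≤ (f + D) * e := by
    refine (res_natDegree F W e hFc hWc).trans ?_
    rw [hFdeg]
    exact Nat.mul_le_mul_right _ (by omega)
  obtain ⟨p, q, -, -, hpq⟩ := exists_mul_add_mul_eq_C_resultant (m := F.natDegree)
    (n := W.natDegree) F W le_rfl le_rfl (Or.inl (by omega))
  -- common points are roots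
  have hroot : ∀ t ∈ P, (resultant F W).IsRoot ((t.1 : ℤ) : ℚ) := by
    intro t ht
    obtain ⟨-, -, h1, h2⟩ := hP t ht
    have e1 : ((F.eval (C ((t.2 : ℤ) : ℚ))).eval ((t.1 : ℤ) : ℚ)) = 0 := by
      have h1q : (a : ℚ) * (t.1 : ℚ) ^ e + b * (t.2 : ℚ) ^ f = E := by exact_mod_cast h1
      rw [hF, hc, hu, hv]
      simp only [eval_sub, eval_pow, eval_X, eval_C, eval_mul]
      field_simp
      linarith
    have e2 : ((W.eval (C ((t.2 : ℤ) : ℚ))).eval ((t.1 : ℤ) : ℚ)) = 0 := by
      rw [hW, WW_eval]; exact h2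
    have h3 := congrArg (fun z : ℚ[X][X] =>
      (z.eval (C ((t.2 : ℤ) : ℚ))).eval ((t.1 : ℤ) : ℚ)) hpq
    simp only [eval_add, eval_mul, eval_C, e1, e2, zero_mul, zero_add] at h3
    exact h3.symm
  have hinj : Set.InjOn (fun t : ℤ × ℤ => ((t.1 : ℤ) : ℚ)) (P : Set (ℤ × ℤ)) := by
    intro t ht t' ht' htt
    have htt0 : ((t.1 : ℤ) : ℚ) = ((t'.1 : ℤ) : ℚ) := htt
    have htt' : t.1 = t'.1 := by exact_mod_cast htt0
    obtain ⟨-, hy, h1, -⟩ := hP t ht
    obtain ⟨-, hy', h1', -⟩ := hP t' ht'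
    have h2 : b * t.2 ^ f = b * t'.2 ^ f := by
      rw [htt'] at h1
      linarith
    have h3 : t.2 ^ f = t'.2 ^ f := mul_left_cancel₀ hb h2
    have h4 : t.2 = t'.2 := by
      exact (pow_left_inj₀ (by omega) (by omega) (by omega)).1 h3
    exact Prod.ext htt' h4
  calc P.card = (P.image (fun t : ℤ × ℤ => ((t.1 : ℤ) : ℚ))).card :=
        (Finset.card_image_of_injOn hinj).symm
    _ ≤ (resultant F W).roots.toFinset.card := by
        refine Finset.card_le_card ?_
        intro x hx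
        obtain ⟨t, ht, rfl⟩ := Finset.mem_image.1 hx
        rw [Multiset.mem_toFinset, Polynomial.mem_roots hr0]
        exact hroot t ht
    _ ≤ (resultant F W).roots.card := Multiset.toFinset_card_le _
    _ ≤ (resultant F W).natDegree := Polynomial.card_roots' _
    _ ≤ (f + D) * e := hrd

end Pool.Agent.H87.AE
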